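import Pool.Agent.MD.I.Defs
import Pool.Agent.LD.I.Sys0

/-!
# MD/I-Sys: the L-functions of the classes which are local squares at no place of `V`

Copies of LD/I/Lm and LD/I/Sys0 for a nonempty set `V` of places.
-/

namespace Pool.Agent.MD

open NumberField IsDedekindDomain Pool.Agent.HWR Pool.Agent.QD Pool.Agent.QD.In Pool.Agent.LD

variable {K : Type} [Field K] [NumberField K] {T : Finset ℕ} (D : LocData T)

private theorem exists_Lm_auxV (hT : ∀ p : ℕ, p.Prime → p < 101 → p ∈ T) (a : ℕ → ℝ)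
    (ha : ∀ q : ℕ, |a q| ≤ 2 * Real.sqrt q) {V : Finset (HeightOneSpectrum (𝓞 K))} (H : HWV D a V)
    (x : Kˣ) (hx0 : ∀ v ∈ V, ¬ LSq v x) (hx : ¬ IsSquare x) : ∃ Λ, IsLm D a x Λ := by
  obtain ⟨Λ, h1, h2, h3, h4⟩ := H x hx0 (qf hx).L (qf hx).θ (qf hx).deg (qf hx).sq
  have hw : D.w (qf hx).L = wx D x := by
    unfold LocData.w wx nr nc sgx
    simp only [dif_neg hx]
  have hA : D.A (qf hx).L = dd x ^ 2 * cdx D x := by
    unfold LocData.A dd cdx
    simp only [dif_neg hx, sq_abs]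
  have hf : Module.finrank ℚ (qf hx).L = 2 * Module.finrank ℚ K := by
    rw [← Module.finrank_mul_finrank ℚ K (qf hx).L, (qf hx).deg, mul_comm]
  have hpl : ∀ s : ℂ, D.pl (qf hx).L s = plx D x s := by
    intro s
    unfold plx
    rw [dif_neg hx]
  have htt : ∀ v : HeightOneSpectrum (𝓞 K), ty K (qf hx).L v = tt x v := by
    intro v
    unfold tt
    rw [dif_neg hx]
  refine ⟨Λ, h1, h2, ?_, ?_⟩
  · intro s
    rw [← hw]
    exact h3 s
  · intro s hs
    rw [h4 s hs, LocData.Lam, hA, hf, hpl, LT_quad' (qf hx).L (qf hx).deg ha T hT hs]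
    simp only [htt]

theorem isLmV (hT : ∀ p : ℕ, p.Prime → p < 101 → p ∈ T) (a : ℕ → ℝ)
    (ha : ∀ q : ℕ, |a q| ≤ 2 * Real.sqrt q) {V : Finset (HeightOneSpectrum (𝓞 K))}
    (hne : V.Nonempty) (H : HWV D a V) (x : Kˣ) (hx : ∀ v ∈ V, ¬ LSq v x) :
    IsLm D a x (Lm D a x) := by
  have hx' : ¬ IsSquare x := by
    rintro ⟨r, hr⟩
    obtain ⟨v, hv⟩ := hne
    apply hx v hv
    have h1 := N4.LSq_sq v r
    rwa [sq, ← hr] at h1
  exact Classical.epsilon_spec (exists_Lm_auxV D hT a ha H x hx hx')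

theorem isKn {a : ℕ → ℝ} {T1 : Finset ℕ} {S V : Finset (HeightOneSpectrum (𝓞 K))}
    (hS : Nic T1 S) (hST : ∀ v, ¬ Away K T v → v ∈ S)
    (hT : ∀ p : ℕ, p.Prime → p < 101 → p ∈ T)
    (ha : ∀ q : ℕ, |a q| ≤ 2 * Real.sqrt q) (ha2 : SqRel K T a) (hV : V ⊆ S)
    (hne : V.Nonempty) (H : HWV D a V)
    (hI : ∀ x : Kˣ, ∃ n0 : ℕ, ∀ n : ℕ, n0 ≤ n → ∃ A C : ℝ, 0 ≤ A ∧ 0 ≤ C ∧ ∀ s : ℂ,
      s.re = n + 1 / 2 → GGX S D a x (2 - s) ≠ 0 ∧
        ‖(GGX S D a x (2 - s))⁻¹‖ ≤ C * (1 + |s.im|) ^ A) :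
    IsKn (sys S D a) (KV S V) := by
  have h2 : ∀ v : HeightOneSpectrum (𝓞 K), (2 : 𝓞 K) ∈ v.asIdeal → v ∈ S := by
    intro v hv
    by_contra h
    exact nic_two hS v h hv
  constructor
  · -- ell_diff
    intro b c h hn
    obtain ⟨x, hx, hc, he⟩ := ellc_of D a h
    have hns : ∀ v ∈ V, ¬ LSq v x := (mem_KV hV x).1 (by rw [← hc] at hn; exact hn)
    show Differentiable ℂ (ellc S D a b c)
    rw [he]
    exact ellX_diff D S x (isLmV D hT a ha hne H x hns)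
  · intro b c h hn
    obtain ⟨x, hx, hc, he⟩ := ellc_of D a h
    have hns : ∀ v ∈ V, ¬ LSq v x := (mem_KV hV x).1 (by rw [← hc] at hn; exact hn)
    show FinOrd (ellc S D a b c)
    rw [he]
    exact ellX_ord D S x (isLmV D hT a ha hne H x hns)
  · -- ell_eq
    intro b c h hn s hs
    obtain ⟨x, hx, hc, he⟩ := ellc_of D a h
    have hns : ∀ v ∈ V, ¬ LSq v x := (mem_KV hV x).1 (by rw [← hc] at hn; exact hn)
    show ellc S D a b c s = _
    rw [he, ellX_eq D S h2 hST hT ha ha2 x (isLmV D hT a ha hne H x hns) hs]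
    congr 1
    refine tprod_congr fun v => ?_
    show _ = Pool.Agent.QD.In.ef a (nrm v.1) (uc S v b c) s
    rw [uc_of hS hx hc v]
  · -- ell_fe
    intro b c h hn s hs
    obtain ⟨x, hx, hc, he⟩ := ellc_of D a h
    have hns : ∀ v ∈ V, ¬ LSq v x := (mem_KV hV x).1 (by rw [← hc] at hn; exact hn)
    show ellc S D a b c s = _ * _ * ellc S D a b c (2 - s)
    rw [he, ellX_fe D S hT ha x (isLmV D hT a ha hne H x hns) hs]
    have e1 : (sys S D a).odd b = oddN S x := (oddN_eq S x b hx).symm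
    have e2 : (sys S D a).GG c = GGX S D a x := by
      show GGX S D a (Quotient.out c) = GGX S D a x
      rw [← hc]
      exact GGX_congr D S h2 hST (out_div S x)
    rw [e1, e2]
  · -- GG_diff
    intro c s hs
    exact (GGX_diff D S hT ha _ hs).differentiableWithinAt
  · intro c
    exact GGX_bd D S hT ha _
  · intro c
    exact hI _

end Pool.Agent.MD
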