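import Pool.Agent.MD.I.Defs

/-!
# MD/I-M0c: the local sum at one place, for all local classes; the sums `Mx` split over `V`

PLAN.  `m0_one`: adapt QD/In/V0b.lean (there `m0_e`, `m0_p`; read the private lemmas on powers): for `LSq v0 x` all symbols `hs v0 x _` are `1` (`hs_of_LSq`), so
`m0 = zr(1) + zr(-1) + 2 s zr(0)`, `s = q^(1/2-w)`, `X = q^(-w)`, `Y = q^(w-1)`:
`= (1-X)/((1-Y)²(1+Y)) * 2 (1 - XY + s (1 - Y²))`, `XY = 1/q`, and `1 - 1/q + s - s Y² = (1 + s)(1 - q^(w-3/2))` (this is the identity for `m0_e` with `√q` replaced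
by `- √q`), `ph = 2 (1-X) ((1-Y)²(1+Y))⁻¹ (1-s)/√q`; so `m0 = ph √q (1 - q^(w-3/2)) (1+s)/(1-s)` and `(1+s)/(1-s) = - (1 + q^(w-1/2))/(1 - q^(w-1/2))`
(`s q^(w-1/2) = 1`; `s ≠ 1`, `|q^(w-1/2)| < 1`).  This is `r0 q w * ph q w` (checked by hand).
`m0_cl`: cases; `m0_e`, `m0_p` (QD/In/V0b), `mloc` unfolds to `r1`, `r2`.
`Mx_split`: induction on `V`: `insert v V' ∪ S' = insert v (V' ∪ S')` (`Finset.insert_union`), `M_split` (QD/In/V0a) for the set `V' ∪ S'` (`Nic T1 (V' ∪ S')` by induction with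
`nic_insert`, or directly from the structure `Nic`: `Nic.ex` and `Finset.subset_union_right`), `v ∉ V' ∪ S'`.
-/

namespace Pool.Agent.MD

open NumberField IsDedekindDomain Pool.Agent.HWR Pool.Agent.QD Pool.Agent.QD.In Pool.Agent.LD

private theorem b_q {q : ℕ} (hq : 2 ≤ q) : (q : ℂ) ≠ 0 := by
  have : q ≠ 0 := by omega
  exact_mod_cast this

private theorem b_norm {q : ℕ} (hq : 2 ≤ q) (w : ℂ) : ‖(q : ℂ) ^ w‖ = (q : ℝ) ^ w.re :=
  Complex.norm_natCast_cpow_of_pos (by omega) w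

private theorem b_lt {q : ℕ} (hq : 2 ≤ q) {w : ℂ} (hw : w.re < 0) : ‖(q : ℂ) ^ w‖ < 1 := by
  have hq1 : (1 : ℝ) < q := by
    have : 1 < q := by omega
    exact_mod_cast this
  rw [b_norm hq]
  exact Real.rpow_lt_one_of_one_lt_of_neg hq1 hw

private theorem b_gt {q : ℕ} (hq : 2 ≤ q) {w : ℂ} (hw : 0 < w.re) : 1 < ‖(q : ℂ) ^ w‖ := by
  have hq1 : (1 : ℝ) < q := by
    have : 1 < q := by omega
    exact_mod_cast this
  rw [b_norm hq]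
  exact Real.one_lt_rpow hq1 hw

private theorem b_ne_one {z : ℂ} (h : ‖z‖ ≠ 1) : 1 - z ≠ 0 := by
  intro h'
  have : z = 1 := (sub_eq_zero.1 h').symm
  rw [this, norm_one] at h
  exact h rfl

private theorem b_ne_neg {z : ℂ} (h : ‖z‖ ≠ 1) : 1 + z ≠ 0 := by
  have := b_ne_one (z := -z) (by rwa [norm_neg])
  rwa [sub_neg_eq_add] at this

/-- the square root -/
private theorem b_sqrt {q : ℕ} : ((Real.sqrt q : ℝ) : ℂ) = (q : ℂ) ^ (1 / 2 : ℂ) := by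
  rw [Real.sqrt_eq_rpow, Complex.ofReal_cpow (by positivity)]
  push_cast
  rfl

private theorem b_sqrt_ne {q : ℕ} (hq : 2 ≤ q) : ((Real.sqrt q : ℝ) : ℂ) ≠ 0 := by
  have : (0 : ℝ) < q := by
    have : 0 < q := by omega
    exact_mod_cast this
  exact_mod_cast (Real.sqrt_pos.2 this).ne'

/-- relations between the powers -/
private theorem b_rel {q : ℕ} (hq : 2 ≤ q) (w : ℂ) :
    (q : ℂ) ^ (1 / 2 - w) = ((Real.sqrt q : ℝ) : ℂ) * (q : ℂ) ^ (-w) ∧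
    (q : ℂ) ^ (w - 1 / 2) = ((Real.sqrt q : ℝ) : ℂ) * (q : ℂ) ^ (w - 1) ∧
    ((Real.sqrt q : ℝ) : ℂ) * (q : ℂ) ^ (w - 3 / 2) = (q : ℂ) ^ (w - 1) ∧
    ((Real.sqrt q : ℝ) : ℂ) * ((Real.sqrt q : ℝ) : ℂ) * ((q : ℂ) ^ (-w) * (q : ℂ) ^ (w - 1)) = 1 := by
  have h0 := b_q hq
  rw [b_sqrt]
  refine ⟨?_, ?_, ?_, ?_⟩
  · rw [← Complex.cpow_add _ _ h0]; congr 1
  · rw [← Complex.cpow_add _ _ h0]; congr 1; ring
  · rw [← Complex.cpow_add _ _ h0]; congr 1; ring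
  · rw [← Complex.cpow_add _ _ h0, ← Complex.cpow_add _ _ h0, ← Complex.cpow_add _ _ h0]
    have : (1 / 2 + 1 / 2 + (-w + (w - 1)) : ℂ) = 0 := by ring
    rw [this, Complex.cpow_zero]

private theorem b_zr (q : ℕ) (t : ℤ) (w : ℂ) : zr q t w =
    ((1 - (q : ℂ) ^ (w - 1))⁻¹ * (1 - (t : ℂ) * (q : ℂ) ^ (w - 1))⁻¹) *
      ((1 - (q : ℂ) ^ (-w)) * (1 - (t : ℂ) * (q : ℂ) ^ (-w))) := by
  unfold zr zf
  rw [mul_inv, inv_inv, inv_inv, neg_sub]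

private theorem b_main_one {X Y r : ℂ} (hr : r ≠ 0) (h1 : 1 - Y ≠ 0) (h2 : 1 + Y ≠ 0)
    (h3 : 1 - r * Y ≠ 0) (h : r * r * (X * Y) = 1) :
    ((1 - Y)⁻¹ * (1 - 1 * Y)⁻¹) * ((1 - X) * (1 - 1 * X)) +
      ((1 - Y)⁻¹ * (1 - (-1) * Y)⁻¹) * ((1 - X) * (1 - (-1) * X)) +
      2 * (r * X) * (((1 - Y)⁻¹ * (1 - 0 * Y)⁻¹) * ((1 - X) * (1 - 0 * X))) =
    (-((r - Y) * (1 + r * Y) * (1 - r * Y)⁻¹)) *
      (2 * (1 - X) * ((1 - Y) ^ 2 * (1 + Y))⁻¹ * (1 - r * X) * r⁻¹) := by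
  have e1 : 1 - (-1) * Y = 1 + Y := by ring
  have e2 : 1 - 1 * Y = 1 - Y := by ring
  have e3 : 1 - 0 * Y = 1 := by ring
  rw [e1, e2, e3]
  have k1 : -((r - Y) * (1 + r * Y) * (1 - r * X)) =
      (1 - X * Y + r * X * (1 - Y ^ 2)) * ((1 - r * Y) * r) := by
    linear_combination (-(r * Y ^ 2 + Y - 2 * r)) * h
  have k2 : -((r - Y) * (1 + r * Y) * (1 - r * X)) * ((1 - r * Y) * r)⁻¹ =
      1 - X * Y + r * X * (1 - Y ^ 2) := by
    rw [k1, mul_inv_cancel_right₀ (mul_ne_zero h3 hr)]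
  have k3 : (-((r - Y) * (1 + r * Y) * (1 - r * Y)⁻¹)) *
      (2 * (1 - X) * ((1 - Y) ^ 2 * (1 + Y))⁻¹ * (1 - r * X) * r⁻¹) =
      2 * (1 - X) * ((1 - Y) ^ 2 * (1 + Y))⁻¹ *
        (-((r - Y) * (1 + r * Y) * (1 - r * X)) * ((1 - r * Y) * r)⁻¹) := by
    rw [mul_inv (1 - r * Y) r]
    ring
  rw [k3, k2]
  field_simp
  ring

variable {K : Type} [Field K] [NumberField K]

/-- the sum in explicit form -/
private theorem b_m0 (v0 : HeightOneSpectrum (𝓞 K)) {e p : Kˣ} (he : uK v0 e = -1)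
    (hp : Odd (ordK v0 p)) (x : Kˣ) (w : ℂ) :
    m0 v0 e p x w = (hs v0 x 1 : ℂ) * zr (nrm v0) 1 w + (hs v0 x e : ℂ) * zr (nrm v0) (-1) w +
      ((hs v0 x p : ℂ) + (hs v0 x (e * p) : ℂ)) * ((nrm v0 : ℂ) ^ (1 / 2 - w) * zr (nrm v0) 0 w) := by
  have he2 : Even (ordK v0 e) := (uK_eq_neg_one_iff.1 he).1
  have hep : Odd (ordK v0 (e * p)) := by
    rw [ordK_mul]
    exact he2.add_odd hp
  have u1 : uK v0 p = 0 := uK_eq_zero_iff.2 hp
  have u2 : uK v0 (e * p) = 0 := uK_eq_zero_iff.2 hep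
  have o1 : ¬ Odd (ordK v0 (1 : Kˣ)) := by rw [ordK_one]; decide
  have o2 : ¬ Odd (ordK v0 e) := Int.not_odd_iff_even.2 he2
  unfold m0
  rw [Fintype.sum_prod_type, Fintype.sum_bool, Fintype.sum_bool, Fintype.sum_bool]
  simp only [rp, if_true, if_false, Bool.false_eq_true, mul_one, one_mul, if_pos hp, if_pos hep,
    if_neg o1, if_neg o2, u1, u2, he, uK_one v0]
  ring

theorem m0_one (v0 : HeightOneSpectrum (𝓞 K)) (h2 : (2 : 𝓞 K) ∉ v0.asIdeal) {e p : Kˣ}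
    (he : uK v0 e = -1) (hp : Odd (ordK v0 p)) {x : Kˣ} (hx : LSq v0 x) {w : ℂ} (hw : w.re < 0) :
    m0 v0 e p x w = r0 (nrm v0) w * ph (nrm v0) w := by
  have hq := two_le_nrm v0
  have hY : ‖(nrm v0 : ℂ) ^ (w - 1)‖ < 1 :=
    b_lt hq (by rw [Complex.sub_re, Complex.one_re]; linarith)
  have hZ : ‖(nrm v0 : ℂ) ^ (w - 1 / 2)‖ < 1 := by
    refine b_lt hq ?_
    have : (1 / 2 : ℂ).re = 1 / 2 := by norm_num
    rw [Complex.sub_re, this]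
    linarith
  obtain ⟨r1, r2, r3, r4⟩ := b_rel hq w
  rw [b_m0 v0 he hp, hs_of_LSq hx, hs_of_LSq hx, hs_of_LSq hx, hs_of_LSq hx, b_zr, b_zr, b_zr]
  have h3 : 1 - ((Real.sqrt (nrm v0) : ℝ) : ℂ) * (nrm v0 : ℂ) ^ (w - 1) ≠ 0 := by
    rw [← r2]
    exact b_ne_one hZ.ne
  have key := b_main_one (b_sqrt_ne hq) (b_ne_one hY.ne) (b_ne_neg hY.ne) h3 r4
  have e4 : ((Real.sqrt (nrm v0) : ℝ) : ℂ) * (1 - (nrm v0 : ℂ) ^ (w - 3 / 2)) =
      ((Real.sqrt (nrm v0) : ℝ) : ℂ) - (nrm v0 : ℂ) ^ (w - 1) := by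
    rw [mul_sub, mul_one, r3]
  unfold ph r0
  rw [e4, r2, r1, ← key]
  push_cast
  ring

theorem m0_cl (v0 : HeightOneSpectrum (𝓞 K)) (h2 : (2 : 𝓞 K) ∉ v0.asIdeal) {e p : Kˣ}
    (he : uK v0 e = -1) (hp : Odd (ordK v0 p)) {x : Kˣ} (k : LC)
    (h0 : k = (false, false) → LSq v0 x) (h1 : k = (true, false) → uK v0 x = -1)
    (h3 : k.2 = true → Odd (ordK v0 x)) {w : ℂ} (hw : w.re < 0) :
    m0 v0 e p x w = mloc (nrm v0) k w * ph (nrm v0) w := by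
  obtain ⟨a, b⟩ := k
  cases b
  · cases a
    · exact m0_one v0 h2 he hp (h0 rfl) hw
    · exact m0_e v0 h2 he hp (h1 rfl) hw
  · exact m0_p v0 h2 he hp (h3 rfl) hw

theorem nic_union {T1 : Finset ℕ} {S' V : Finset (HeightOneSpectrum (𝓞 K))} (hS' : Nic T1 S')
    [DecidableEq (HeightOneSpectrum (𝓞 K))] : Nic T1 (V ∪ S') := by
  obtain ⟨S0, hO, hG, hsub⟩ := hS'.ex
  exact ⟨hS'.prime, hS'.two, S0, hO, hG, hsub.trans Finset.subset_union_right⟩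

theorem Mx_split [DecidableEq (HeightOneSpectrum (𝓞 K))] {T1 : Finset ℕ}
    {S' V : Finset (HeightOneSpectrum (𝓞 K))} (hS' : Nic T1 S') (hd : ∀ v ∈ V, v ∉ S')
    (e p : HeightOneSpectrum (𝓞 K) → Kˣ) (he : ∀ v ∈ V, uK v (e v) = -1)
    (hp : ∀ v ∈ V, Odd (ordK v (p v))) (x : Kˣ) (w : ℂ) :
    Mx (V ∪ S') x w = Mx S' x w * ∏ v ∈ V, m0 v (e v) (p v) x w := by
  induction V using Finset.induction_on with
  | empty => rw [Finset.empty_union, Finset.prod_empty, mul_one]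
  | insert v V hv ih =>
    have h1 : v ∉ V ∪ S' := by
      intro h
      rcases Finset.mem_union.1 h with h | h
      · exact hv h
      · exact hd v (Finset.mem_insert_self v V) h
    rw [Finset.insert_union, M_split v (he v (Finset.mem_insert_self v V))
      (hp v (Finset.mem_insert_self v V)) (nic_union hS') h1 x w,
      ih (fun u hu => hd u (Finset.mem_insert_of_mem hu))
        (fun u hu => he u (Finset.mem_insert_of_mem hu))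
        (fun u hu => hp u (Finset.mem_insert_of_mem hu)), Finset.prod_insert hv]
    ring

end Pool.Agent.MD
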