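import Pool.Agent.MD.I.Apx
import Pool.Agent.MD.I.M0c

/-!
# MD/I-GGr: the axiom `GG_rel`

PLAN.  `h = mk y` (`mem_HV`), `h * cl .. k = mk (y * ∏ j, rp (E j) (P j) (k j))` (`cl_mk`).  `GG (mk z) = GGX S D a z` with `S = V ∪ S'`: `GGX_congr` and `out_div` (see `hGG` in
LD/I/Loc.lean).  For a finite set `A` of indices (`A ⊆ univ`) let `k_A i = ef (decide (i ∈ A))` and `z_A = y * ∏ j, rp (E j) (P j) (k_A j)`.  Claim, by induction on `A`:
`GGX S z_A s * ∏ i ∈ A, ka (nrm i.1) .. s = GGX S z_∅ s * ∏ i ∈ A, kb .. s`.  Step `A → insert i A`: `z_(insert i A) / z_A = E i / P i` times a square or, directly,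
`= (E i) / (P i) ∈ HSub (S.erase i.1)` (`E_S`, `P_S`, `E_V`, `P_V`), `uK i.1 z_(insert i A) = -1`, `Odd (ordK i.1 z_A)` (`loc_cl`); `S = insert i.1 (S.erase i.1)`
(`Finset.insert_erase`), and `GGX_rel` (QD/In/GGX) for the set `S.erase i.1` (it contains the places over `2` and those not away from `T`, as these are in `S'`):
`GGX S z_(insert i A) s * ka = GGX S z_A s * kb` (`ka`, `kb` unfold to the factors there).  For `f : κ → Bool` take `A = {i | f i}`; `∏ i, if f i then ka else 1 = ∏ i ∈ A, ka`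
(`Finset.prod_filter`).
-/

namespace Pool.Agent.MD

open NumberField IsDedekindDomain Pool.Agent.HWR Pool.Agent.QD Pool.Agent.QD.In Pool.Agent.LD

variable {K : Type} [Field K] [NumberField K] {T : Finset ℕ} (D : LocData T) {a : ℕ → ℝ}

private theorem ggr_rp_t (e p : Kˣ) : rp e p (ef true) = e := by simp [rp, ef]

private theorem ggr_rp_f (e p : Kˣ) : rp e p (ef false) = p := by simp [rp, ef]

/-- the element with the local classes given by the set `A` -/
private noncomputable def ggrZ {V : Finset (HeightOneSpectrum (𝓞 K))} (E P : {v // v ∈ V} → Kˣ) (y : Kˣ)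
    (f : {v // v ∈ V} → Bool) : Kˣ := y * ∏ j, rp (E j) (P j) (ef (f j))

open Classical in
private theorem ggr_div {V : Finset (HeightOneSpectrum (𝓞 K))} (E P : {v // v ∈ V} → Kˣ) (y : Kˣ)
    (f g : {v // v ∈ V} → Bool) (i : {v // v ∈ V}) (hf : f i = true) (hg : g i = false)
    (hfg : ∀ j, j ≠ i → f j = g j) : ggrZ E P y f / ggrZ E P y g = E i / P i := by
  unfold ggrZ
  rw [← Finset.mul_prod_erase Finset.univ (fun j => rp (E j) (P j) (ef (f j))) (Finset.mem_univ i),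
    ← Finset.mul_prod_erase Finset.univ (fun j => rp (E j) (P j) (ef (g j))) (Finset.mem_univ i), hf, hg,
    ggr_rp_t, ggr_rp_f]
  have h1 : ∏ j ∈ Finset.univ.erase i, rp (E j) (P j) (ef (f j)) =
      ∏ j ∈ Finset.univ.erase i, rp (E j) (P j) (ef (g j)) := by
    apply Finset.prod_congr rfl
    intro j hj
    rw [hfg j (Finset.mem_erase.1 hj).1]
  rw [h1, mul_div_mul_left_eq_div, mul_div_mul_right_eq_div]

private theorem ggr_EP {S' V S'' : Finset (HeightOneSpectrum (𝓞 K))} {E P : {v // v ∈ V} → Kˣ}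
    (hE : IsEP S' V E P) (i : {v // v ∈ V}) (hS : ∀ v ∈ S'', v ∈ S' ∨ ∃ h : v ∈ V, (⟨v, h⟩ : {v // v ∈ V}) ≠ i) :
    E i / P i ∈ Pool.Agent.QD.HSub S'' := by
  apply Subgroup.div_mem
  · refine ⟨fun v hv => ?_, (hE.E_S i).2⟩
    rcases hS v hv with h | ⟨h, hne⟩
    · exact (hE.E_S i).1 v h
    · exact hE.E_V i ⟨v, h⟩ hne.symm
  · refine ⟨fun v hv => ?_, (hE.P_S i).2⟩
    rcases hS v hv with h | ⟨h, hne⟩
    · exact (hE.P_S i).1 v h
    · exact hE.P_V i ⟨v, h⟩ hne.symm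

open Classical in
private theorem ggr_step {T1 : Finset ℕ} {S' V : Finset (HeightOneSpectrum (𝓞 K))} (hS' : Nic T1 S')
    (hST' : ∀ v, ¬ Away K T v → v ∈ S') (hT : ∀ p : ℕ, p.Prime → p < 101 → p ∈ T)
    (ha : ∀ q : ℕ, |a q| ≤ 2 * Real.sqrt q) (ha2 : SqRel K T a) (hd : ∀ v ∈ V, v ∉ S')
    {E P : {v // v ∈ V} → Kˣ} (hE : IsEP S' V E P) {y : Kˣ} (hy : ∀ v ∈ V, LSq v y)
    (f g : {v // v ∈ V} → Bool) (i : {v // v ∈ V}) (hf : f i = true) (hg : g i = false)
    (hfg : ∀ j, j ≠ i → f j = g j) {s : ℂ} (hs : s.re < 1 / 2) :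
    GGX (V ∪ S') D a (ggrZ E P y f) s * ka (nrm i.1) (a (nrm i.1)) s =
      GGX (V ∪ S') D a (ggrZ E P y g) s * kb (nrm i.1) (a (nrm i.1)) s := by
  obtain ⟨S0, hO, hG, hsub⟩ := hS'.ex
  have hmem : i.1 ∈ V ∪ S' := Finset.mem_union_left _ i.2
  have hne : ∀ v ∈ S', v ∈ (V ∪ S').erase i.1 := by
    intro v hv
    refine Finset.mem_erase.2 ⟨?_, Finset.mem_union_right _ hv⟩
    rintro rfl
    exact hd _ i.2 hv
  have h12 : ggrZ E P y f / ggrZ E P y g ∈ Pool.Agent.QD.HSub ((V ∪ S').erase i.1) := by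
    rw [ggr_div E P y f g i hf hg hfg]
    apply ggr_EP hE i
    intro v hv
    obtain ⟨h1, h2⟩ := Finset.mem_erase.1 hv
    rcases Finset.mem_union.1 h2 with h3 | h3
    · exact Or.inr ⟨h3, fun h => h1 (congrArg Subtype.val h)⟩
    · exact Or.inl h3
  have h1 : uK i.1 (ggrZ E P y f) = -1 :=
    (loc_cl hE hy (fun j => ef (f j)) i).2.1 (by
      show ef (f i) = _
      rw [hf]
      rfl)
  have h3 : Odd (ordK i.1 (ggrZ E P y g)) :=
    (loc_cl hE hy (fun j => ef (g j)) i).2.2 (by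
      show (ef (g i)).2 = true
      rw [hg]
      rfl)
  have key := GGX_rel D ((V ∪ S').erase i.1) hT ha ha2 (fun v hv => hne v (hsub (hG.1 v hv)))
    (fun v hv => hne v (hST' v hv)) i.1 (Finset.notMem_erase _ _) h12 h1 h3 hs
  rw [Finset.insert_erase hmem] at key
  exact key

open Classical in
private theorem ggr_all {T1 : Finset ℕ} {S' V : Finset (HeightOneSpectrum (𝓞 K))} (hS' : Nic T1 S')
    (hST' : ∀ v, ¬ Away K T v → v ∈ S') (hT : ∀ p : ℕ, p.Prime → p < 101 → p ∈ T)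
    (ha : ∀ q : ℕ, |a q| ≤ 2 * Real.sqrt q) (ha2 : SqRel K T a) (hd : ∀ v ∈ V, v ∉ S')
    {E P : {v // v ∈ V} → Kˣ} (hE : IsEP S' V E P) {y : Kˣ} (hy : ∀ v ∈ V, LSq v y)
    {s : ℂ} (hs : s.re < 1 / 2) (A : Finset {v // v ∈ V}) :
    GGX (V ∪ S') D a (ggrZ E P y (fun i => decide (i ∈ A))) s * ∏ i ∈ A, ka (nrm i.1) (a (nrm i.1)) s =
      GGX (V ∪ S') D a (ggrZ E P y (fun _ => false)) s * ∏ i ∈ A, kb (nrm i.1) (a (nrm i.1)) s := by
  induction A using Finset.induction_on with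
  | empty =>
    rw [Finset.prod_empty, Finset.prod_empty]
    have h1 : (fun i : {v // v ∈ V} => decide (i ∈ (∅ : Finset {v // v ∈ V}))) = fun _ => false := by
      funext i
      simp
    rw [h1]
  | insert i A hi ih =>
    have h1 := ggr_step D hS' hST' hT ha ha2 hd hE hy (fun j => decide (j ∈ insert i A))
      (fun j => decide (j ∈ A)) i (by simp) (by simp [hi]) (by
        intro j hj
        simp [hj]) hs
    rw [Finset.prod_insert hi, Finset.prod_insert hi, ← mul_assoc, h1, mul_assoc,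
      mul_comm (kb (nrm i.1) (a (nrm i.1)) s), ← mul_assoc, ih, mul_assoc,
      mul_comm (∏ i ∈ A, kb (nrm i.1) (a (nrm i.1)) s)]

open Classical in
theorem GG_relV {T1 : Finset ℕ} {S' V : Finset (HeightOneSpectrum (𝓞 K))} (hS' : Nic T1 S')
    (hST' : ∀ v, ¬ Away K T v → v ∈ S') (hT : ∀ p : ℕ, p.Prime → p < 101 → p ∈ T)
    (ha : ∀ q : ℕ, |a q| ≤ 2 * Real.sqrt q) (ha2 : SqRel K T a) (hd : ∀ v ∈ V, v ∉ S')
    {E P : {v // v ∈ V} → Kˣ} (hE : IsEP S' V E P) {h : GS (V ∪ S')} (hh : h ∈ HV (V ∪ S') V)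
    (f : {v // v ∈ V} → Bool) {s : ℂ} (hs : s.re < 1 / 2) :
    (sys (V ∪ S') D a).GG (h * cl (fun i => (QuotientGroup.mk (E i) : GS (V ∪ S')))
        (fun i => (QuotientGroup.mk (P i) : GS (V ∪ S'))) fun i => ef (f i)) s *
        (∏ i : {v // v ∈ V}, if f i then ka (nrm i.1) (a (nrm i.1)) s else 1) =
      (sys (V ∪ S') D a).GG (h * cl (fun i => (QuotientGroup.mk (E i) : GS (V ∪ S')))
        (fun i => (QuotientGroup.mk (P i) : GS (V ∪ S'))) fun _ => ef false) s *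
        (∏ i : {v // v ∈ V}, if f i then kb (nrm i.1) (a (nrm i.1)) s else 1) := by
  obtain ⟨S0, hO, hG, hsub⟩ := hS'.ex
  have h2 : ∀ v : HeightOneSpectrum (𝓞 K), (2 : 𝓞 K) ∈ v.asIdeal → v ∈ V ∪ S' := fun v hv =>
    Finset.mem_union_right _ (hsub (hG.1 v hv))
  have hST : ∀ v, ¬ Away K T v → v ∈ V ∪ S' := fun v hv => Finset.mem_union_right _ (hST' v hv)
  have hGG : ∀ z : Kˣ, (sys (V ∪ S') D a).GG (QuotientGroup.mk z) =
      GGX (V ∪ S') D a z := fun z => GGX_congr D _ h2 hST (out_div _ z)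
  obtain ⟨y, rfl⟩ := QuotientGroup.mk_surjective h
  have hy : ∀ v ∈ V, LSq v y := (mem_HV Finset.subset_union_left y).1 hh
  have hz : ∀ g : {v // v ∈ V} → Bool,
      (QuotientGroup.mk y * cl (fun i => (QuotientGroup.mk (E i) : GS (V ∪ S')))
        (fun i => (QuotientGroup.mk (P i) : GS (V ∪ S'))) fun i => ef (g i) : GS (V ∪ S')) =
      QuotientGroup.mk (ggrZ E P y g) := by
    intro g
    rw [cl_mk]
    rfl
  have key := ggr_all D hS' hST' hT ha ha2 hd hE hy hs (Finset.univ.filter fun i => f i = true)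
  have hf : (fun i : {v // v ∈ V} => decide (i ∈ Finset.univ.filter fun i => f i = true)) = f := by
    funext i
    simp
  rw [hf, Finset.prod_filter, Finset.prod_filter] at key
  rw [hz f, hz (fun _ => false), hGG, hGG]
  exact key

end Pool.Agent.MD
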