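import Pool.Agent.MD.I.Mfac
import Pool.Agent.MD.I.MInv
import Pool.Agent.MD.I.GGr

/-!
# MD/I-IsL: the local structure

PLAN (compare LD/I/Loc.lean).  `hq`: `nrm_ge` (places of `V` are away from `T` as they are not in `S'`), `hl`: `ha`; `ex2`: `sq_mem_HSub`; `dec`: `c = mk x`; for `i : {v // v ∈ V}` `loc_class` (QD/In/V0a)
for `E i`, `P i` gives `k i` with `LSq i.1 (x / rp (E i) (P i) (k i))`; `y = x / ∏ j, rp (E j) (P j) (k j)` is a local square at all `i` (`E_V`, `P_V`; see the proof of `loc_cl`), `h = mk y`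
(`mem_HV`), `cl_mk`.  `inj`: `cl_mk`, `mem_HV`, `loc_cl` with `y = 1`: if `k i ≠ (false, false)` then `uK = -1` or the order is odd, so it is no local square (`uK_of_LSq`, `even_of_LSq`).
`Kn_iff`: the same with `mem_KV`, `h = mk y`.  `M_fac`: `M_facV` (`sys_M`, LD/I/Defs: `rfl`), `M_inv`: `M_invV` (see the end of LD/I/Loc.lean for the passage between the two forms of
`if h = 1`), `GG_rel`: `GG_relV`.  `sep`: `sys.R b c = Rel S b c`, so `x` with orders `b` and class `cl k = mk z_k` (`cl_mk`): `x / z_k ∈ HSub S`, `z_k ∈ HSub S'` (`prod_S`), so `x ∈ HSub S'`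
(`HSub_mono`); if `nJ b < 101 * ∏ q` then `x` is a square (`hsep`), so a local square at all `v ∈ V` (`N4.LSq_sq`), so `mk z_k ∈ HV`, so `k = 0` by `inj`.
`(sys S D a).nJ b = b.prod fun v k => nrm v.1 ^ k` is `rfl`; `∏ i : {v // v ∈ V}, nrm i.1`.
-/

namespace Pool.Agent.MD

open NumberField IsDedekindDomain Pool.Agent.HWR Pool.Agent.QD Pool.Agent.QD.In Pool.Agent.LD

variable {K : Type} [Field K] [NumberField K] {T : Finset ℕ} (D : LocData T) {a : ℕ → ℝ}

private theorem il_rp_mem {H : Subgroup Kˣ} {e p : Kˣ} (he : e ∈ H) (hp : p ∈ H) (k : LC) :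
    rp e p k ∈ H := by
  unfold rp
  apply H.mul_mem
  · split_ifs
    · exact he
    · exact H.one_mem
  · split_ifs
    · exact hp
    · exact H.one_mem

private theorem il_ff {S' V : Finset (HeightOneSpectrum (𝓞 K))} {E P : {v // v ∈ V} → Kˣ}
    (h : IsEP S' V E P) {y : Kˣ} (hy : ∀ v ∈ V, LSq v y) (k : {v // v ∈ V} → LC)
    (i : {v // v ∈ V}) (hs : LSq i.1 (y * ∏ j, rp (E j) (P j) (k j))) : k i = (false, false) := by
  obtain ⟨_, h2, h3⟩ := loc_cl h hy k i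
  rcases hki : k i with ⟨a, b⟩
  cases b
  · cases a
    · rfl
    · exfalso
      have h4 := h2 hki
      rw [uK_of_LSq hs] at h4
      norm_num at h4
  · exfalso
    have h4 := h3 (by rw [hki])
    exact (Int.not_odd_iff_even.2 (even_of_LSq hs)) h4

open Classical in
theorem isLocs {T1 : Finset ℕ} {S' V : Finset (HeightOneSpectrum (𝓞 K))} (hS' : Nic T1 S')
    (hST' : ∀ v, ¬ Away K T v → v ∈ S') (hT : ∀ p : ℕ, p.Prime → p < 101 → p ∈ T)
    (ha : ∀ q : ℕ, |a q| ≤ 2 * Real.sqrt q) (ha2 : SqRel K T a) (hd : ∀ v ∈ V, v ∉ S')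
    {E P : {v // v ∈ V} → Kˣ} (hE : IsEP S' V E P)
    (hsep : ∀ (x : Kˣ) (b : Io (V ∪ S') →₀ ℕ), x ∈ Pool.Agent.QD.HSub S' →
      (∀ v : Io (V ∪ S'), ordK v.1 x = (b v : ℤ)) →
      (b.prod fun v k => nrm v.1 ^ k) < 101 * ∏ i : {v // v ∈ V}, nrm i.1 → IsSquare x) :
    IsLocs (sys (V ∪ S') D a) (HV (V ∪ S') V) (KV (V ∪ S') V) (M0V S' V)
      (fun i : {v // v ∈ V} => (QuotientGroup.mk (E i) : GS (V ∪ S')))
      (fun i : {v // v ∈ V} => (QuotientGroup.mk (P i) : GS (V ∪ S')))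
      (fun i : {v // v ∈ V} => nrm i.1) (fun i : {v // v ∈ V} => a (nrm i.1)) := by
  have hVS : V ⊆ V ∪ S' := Finset.subset_union_left
  have hS'S : S' ⊆ V ∪ S' := Finset.subset_union_right
  have hrep : ∀ h ∈ HV (V ∪ S') V, ∃ y : Kˣ, (∀ v ∈ V, LSq v y) ∧
      (QuotientGroup.mk y : GS (V ∪ S')) = h := by
    intro h hh
    obtain ⟨y, hy⟩ := QuotientGroup.mk_surjective h
    refine ⟨y, ?_, hy⟩
    rw [← hy] at hh
    exact (mem_HV hVS y).1 hh
  have hone : ∀ v ∈ V, LSq v (1 : Kˣ) := fun v _ => LSq_one v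
  have hinj : ∀ k : {v // v ∈ V} → LC,
      (∀ v ∈ V, LSq v (∏ j, rp (E j) (P j) (k j))) → k = fun _ => (false, false) := by
    intro k hk
    funext i
    refine il_ff hE hone k i ?_
    rw [one_mul]
    exact hk i.1 i.2
  refine ⟨?_, ?_, ?_, ?_, ?_, ?_, ?_, ?_, ?_, ?_⟩
  · -- hq
    intro i
    refine nrm_ge K T hT i.1 ?_
    by_contra h
    exact hd i.1 i.2 (hST' i.1 h)
  · -- hl
    intro i
    exact ha _
  · -- ex2
    intro g
    obtain ⟨x, rfl⟩ := QuotientGroup.mk_surjective g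
    have h1 : (QuotientGroup.mk (x ^ 2) : GS (V ∪ S')) = 1 :=
      (QuotientGroup.eq_one_iff _).2 (sq_mem_HSub _ x)
    have h2 : (QuotientGroup.mk x * QuotientGroup.mk x : GS (V ∪ S')) =
        QuotientGroup.mk (x ^ 2) := by
      rw [pow_two, QuotientGroup.mk_mul]
    exact h2.trans h1
  · -- dec
    intro c
    obtain ⟨x, rfl⟩ := QuotientGroup.mk_surjective c
    have hex : ∀ i : {v // v ∈ V}, ∃ j : Bool × Bool, LSq i.1 (x / rp (E i) (P i) j) := fun i =>
      (loc_class i.1 (nic_two hS' i.1 (hd i.1 i.2)) (hE.E_loc i) (hE.P_loc i) x).exists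
    choose k hk using hex
    have hy : ∀ v ∈ V, LSq v (x / ∏ j, rp (E j) (P j) (k j)) := by
      intro v hv
      have h1 : x / ∏ j, rp (E j) (P j) (k j) =
          x / rp (E ⟨v, hv⟩) (P ⟨v, hv⟩) (k ⟨v, hv⟩) /
            ∏ j ∈ Finset.univ.erase (⟨v, hv⟩ : {v // v ∈ V}), rp (E j) (P j) (k j) := by
        rw [← Finset.mul_prod_erase Finset.univ (fun j => rp (E j) (P j) (k j))
          (Finset.mem_univ (⟨v, hv⟩ : {v // v ∈ V})), div_mul_eq_div_div]
      rw [h1]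
      refine LSq_div (hk ⟨v, hv⟩) ?_
      rw [← mem_LSub]
      apply Subgroup.prod_mem
      intro j hj
      have hji : j ≠ ⟨v, hv⟩ := (Finset.mem_erase.1 hj).1
      exact il_rp_mem (hE.E_V j ⟨v, hv⟩ hji) (hE.P_V j ⟨v, hv⟩ hji) (k j)
    refine ⟨QuotientGroup.mk (x / ∏ j, rp (E j) (P j) (k j)), (mem_HV hVS _).2 hy, k, ?_⟩
    have h2 := cl_mk (V ∪ S') E P k
    have h3 : (QuotientGroup.mk x : GS (V ∪ S')) =
        QuotientGroup.mk (x / ∏ j, rp (E j) (P j) (k j)) *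
          QuotientGroup.mk (∏ j, rp (E j) (P j) (k j)) := by
      rw [← QuotientGroup.mk_mul, div_mul_cancel]
    exact h3.trans (congrArg (fun t => (QuotientGroup.mk (x / ∏ j, rp (E j) (P j) (k j)) :
      GS (V ∪ S')) * t) h2.symm)
  · -- inj
    intro k hk
    have h2 := cl_mk (V ∪ S') E P k
    have h3 : cl (fun i => (QuotientGroup.mk (E i) : GS (V ∪ S')))
      (fun i => (QuotientGroup.mk (P i) : GS (V ∪ S'))) k ∈ HV (V ∪ S') V := hk
    rw [h2] at h3
    exact hinj k ((mem_HV hVS _).1 h3)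
  · -- Kn_iff
    intro h hh k
    obtain ⟨y, hy, rfl⟩ := hrep h hh
    have h2 := cl_mk (V ∪ S') E P k
    have h3 : (QuotientGroup.mk y : GS (V ∪ S')) * cl (fun i => (QuotientGroup.mk (E i) : GS (V ∪ S')))
      (fun i => (QuotientGroup.mk (P i) : GS (V ∪ S'))) k =
      QuotientGroup.mk (y * ∏ j, rp (E j) (P j) (k j)) := by
      rw [h2, QuotientGroup.mk_mul]
    have h4 : (QuotientGroup.mk y : GS (V ∪ S')) * cl (fun i => (QuotientGroup.mk (E i) : GS (V ∪ S')))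
      (fun i => (QuotientGroup.mk (P i) : GS (V ∪ S'))) k ∈ KV (V ∪ S') V ↔
        ∀ v ∈ V, ¬ LSq v (y * ∏ j, rp (E j) (P j) (k j)) := by
      rw [h3]
      exact mem_KV hVS _
    refine h4.trans ?_
    constructor
    · intro h5 i hi
      exact h5 i.1 i.2 ((loc_cl hE hy k i).1 hi)
    · intro h5 v hv hs
      exact h5 ⟨v, hv⟩ (il_ff hE hy k ⟨v, hv⟩ hs)
  · -- M_fac
    intro h hh k w hw
    exact M_facV hS' hd hE hh k hw
  · -- M_inv
    intro X hX
    obtain ⟨P', Nf, hP', hd1, hd2, hd3⟩ := M_invV hS' hd X hX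
    refine ⟨P', Nf, hP', hd1, hd2, fun h hh w hw1 hw2 => (hd3 h hh w hw1 hw2).trans ?_⟩
    by_cases h1 : h = 1
    · rw [if_pos h1]
      exact if_pos h1
    · rw [if_neg h1]
      exact if_neg h1
  · -- GG_rel
    intro h hh f s hs
    exact GG_relV D hS' hST' hT ha ha2 hd hE hh f hs
  · -- sep
    intro k hk b hR
    by_contra hlt
    push Not at hlt
    have hlt' : (b.prod fun v k => nrm v.1 ^ k) < 101 * ∏ i : {v // v ∈ V}, nrm i.1 := hlt
    obtain ⟨x, hx1, hx2⟩ := hR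
    have h2 := cl_mk (V ∪ S') E P k
    have hx3 : (QuotientGroup.mk x : GS (V ∪ S')) =
        QuotientGroup.mk (∏ j, rp (E j) (P j) (k j)) := hx2.trans h2
    have hx4 := (mk_eq_iff (V ∪ S') _ _).1 hx3
    have hx5 : x ∈ Pool.Agent.QD.HSub S' := by
      have h5 : x = x / (∏ j, rp (E j) (P j) (k j)) * ∏ j, rp (E j) (P j) (k j) := by
        rw [div_mul_cancel]
      rw [h5]
      exact (Pool.Agent.QD.HSub S').mul_mem (HSub_mono hS'S hx4) (prod_S hE k)
    obtain ⟨r, hr⟩ := hsep x b hx5 hx1 hlt'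
    refine hk (hinj k fun v hv => ?_)
    have h6 : (QuotientGroup.mk x : GS (V ∪ S')) ∈ HV (V ∪ S') V := by
      refine (mem_HV hVS x).2 fun v _ => ?_
      rw [hr, ← pow_two]
      exact LSq_sq v r
    rw [hx3] at h6
    exact (mem_HV hVS _).1 h6 v hv

end Pool.Agent.MD
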