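import Pool.Agent.MD.I.Defs

/-!
# MD/I-Sep: enlarging `S'` such that elements trivial at `S'` and of small norm outside are squares

PLAN.  `S1 = V ∪ S'`, `Nic T1 S1` (structure: `Nic.ex`, `S' ⊆ S1`).  The set of `b : Io S1 →₀ ℕ` with `b.prod (nrm ^ ·) < Q` is finite: for `v ∈ supp b`: `nrm v < Q` and
`2^(b v) ≤ Q`; finitely many places of norm `< Q` (see `finite_cnt`, `hasFiniteMulSupport`-like facts in HWR/SumNrm.lean, or `Ideal.finite_setOf_absNorm_le`; also the summability
`summable_nrm K (x := 2)` gives it: `Summable.tendsto_cofinite_zero`), so `b` is one of finitely many functions (`Finsupp`s with support in a finite set and bounded values: injective map into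
functions `Fin .. → Fin ..`, or `Set.Finite.subset` of `Finset.finsupp`-like, `Finset.pi`).  `GS S1` is finite.  For every pair `(b, c)` with `Rel S1 b c` choose `x_{b,c}`; if it is not a
square, `exists_inert S0 x_{b,c}` (QD/N3/Inert) with `S0 = S1` gives `u ∉ S1` with `uK u x_{b,c} = -1`.  `U` = the finite set of all these `u` (`U ∩ S1 = ∅`).
Now let `S2 = V ∪ (U ∪ S')`, `x ∈ HSub (U ∪ S')` with orders `b : Io S2 →₀ ℕ` outside `S2`, of norm `< Q`.  For `u ∈ U`: `ordK u x` is even (`even_of_LSq`).  By `nic_pi` for `S1`: `π_u` with `ordK u π_u = 1`,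
order `0` at the other places outside `S1`.  `y = ∏ u ∈ U, π_u ^ (- ordK u x / 2)`, `x' = x * y^2`: orders outside `S1`: `0` at `u ∈ U`, `b v` at the others: `= b'` where `b'` is `b` extended by
zero (`Finsupp.embDomain` or `Finsupp.mapDomain` along `Io S2 → Io S1`), of the same norm (`Finsupp.prod_embDomain`/`prod_mapDomain_index_inj`).  `c` = class of `x'` in `GS S1`; `Rel S1 b' c`.  `sq_of_rel` (QD/In/Alg):
`x' / x_{b',c}` is a square.  If `x_{b',c}` is not a square, the chosen `u ∈ U` has `uK u x' = uK u x_{b',c} = -1` (`uK_congr'` or `uK_of_rel`), but `x' = x y^2` is a local square at `u`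
(`x ∈ HSub (U ∪ S')`), so `uK u x' = 1` (`uK_of_LSq`): contradiction.  So `x_{b',c}`, hence `x'`, hence `x` is a square.
-/

namespace Pool.Agent.MD

open NumberField IsDedekindDomain Pool.Agent.HWR Pool.Agent.QD Pool.Agent.QD.In Pool.Agent.LD

variable {K : Type} [Field K] [NumberField K]

private theorem sep_fin (Q : ℕ) : {v : HeightOneSpectrum (𝓞 K) | nrm v < Q}.Finite := by
  have h := Ideal.finite_setOfPred_absNorm_le (S := 𝓞 K) Q
  refine Set.Finite.subset (h.preimage
    (f := fun v : HeightOneSpectrum (𝓞 K) => v.asIdeal) ?_) ?_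
  · intro v _ w _ hvw
    exact HeightOneSpectrum.ext hvw
  · intro v hv
    have hv' : nrm v < Q := hv
    show Ideal.absNorm v.asIdeal ≤ Q
    exact hv'.le

private theorem sep_finb (S : Finset (HeightOneSpectrum (𝓞 K))) (Q : ℕ) :
    {b : Io S →₀ ℕ | (b.prod fun v k => nrm v.1 ^ k) < Q}.Finite := by
  classical
  have hP : {v : Io S | nrm v.1 < Q}.Finite :=
    (sep_fin (K := K) Q).preimage Subtype.val_injective.injOn
  refine Set.Finite.subset (Finset.finite_toSet
    (Finset.finsupp hP.toFinset fun _ => Finset.range Q)) ?_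
  intro b hb
  have hb' : (∏ v ∈ b.support, nrm v.1 ^ b v) < Q := hb
  have key : ∀ v ∈ b.support, nrm v.1 ^ b v < Q := by
    intro v hv
    refine lt_of_le_of_lt ?_ hb'
    rw [← Finset.mul_prod_erase _ _ hv]
    refine Nat.le_mul_of_pos_right _ (Finset.prod_pos fun w _ => ?_)
    exact pow_pos (by have := two_le_nrm w.1; omega) _
  rw [Finset.mem_coe, Finset.mem_finsupp_iff]
  constructor
  · intro v hv
    rw [Set.Finite.mem_toFinset]
    show nrm v.1 < Q
    refine lt_of_le_of_lt ?_ (key v hv)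
    exact Nat.le_self_pow (Finsupp.mem_support_iff.1 hv) _
  · intro v _
    rw [Finset.mem_range]
    by_cases hv : v ∈ b.support
    · refine lt_of_le_of_lt ?_ (key v hv)
      refine (Nat.lt_pow_self (by norm_num : 1 < 2)).le.trans (Nat.pow_le_pow_left ?_ _)
      exact two_le_nrm v.1
    · rw [Finsupp.notMem_support_iff.1 hv]
      exact lt_of_le_of_lt (Nat.zero_le _) hb'

open Classical in
private theorem sep_y {T : Finset ℕ} {S : Finset (HeightOneSpectrum (𝓞 K))} (hS : Nic T S)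
    (f : HeightOneSpectrum (𝓞 K) → ℤ) (U : Finset (HeightOneSpectrum (𝓞 K))) :
    (∀ u ∈ U, u ∉ S) → ∃ y : Kˣ, ∀ v, v ∉ S → ordK v y = if v ∈ U then f v else 0 := by
  induction U using Finset.induction_on with
  | empty =>
    intro _
    refine ⟨1, fun v _ => ?_⟩
    have h := Pool.Agent.QD.ordK_pow v (1 : Kˣ) 0
    simpa using h
  | insert u U hu ih =>
    intro hU
    obtain ⟨y, hy⟩ := ih fun w hw => hU w (Finset.mem_insert_of_mem hw)
    obtain ⟨p, hp1, hp2⟩ := nic_pi hS u (hU u (Finset.mem_insert_self _ _))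
    refine ⟨y * p ^ f u, fun v hv => ?_⟩
    rw [Pool.Agent.QD.ordK_mul, Pool.Agent.QD.ordK_zpow, hy v hv]
    by_cases hvu : v = u
    · subst hvu
      rw [if_neg hu, if_pos (Finset.mem_insert_self _ _), hp1]
      ring
    · rw [hp2 v hv hvu, mul_zero, add_zero]
      by_cases hvU : v ∈ U
      · rw [if_pos hvU, if_pos (Finset.mem_insert_of_mem hvU)]
      · rw [if_neg hvU, if_neg]
        rw [Finset.mem_insert]
        push Not
        exact ⟨hvu, hvU⟩

open Classical in
theorem exists_sep {T1 : Finset ℕ} {S' V : Finset (HeightOneSpectrum (𝓞 K))} (hS' : Nic T1 S')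
    (hd : ∀ v ∈ V, v ∉ S') (Q : ℕ) : ∃ U : Finset (HeightOneSpectrum (𝓞 K)),
      (∀ v ∈ V, v ∉ U) ∧ ∀ (x : Kˣ) (b : Io (V ∪ (U ∪ S')) →₀ ℕ),
        x ∈ Pool.Agent.QD.HSub (U ∪ S') → (∀ v : Io (V ∪ (U ∪ S')), ordK v.1 x = (b v : ℤ)) →
        (b.prod fun v k => nrm v.1 ^ k) < Q → IsSquare x := by
  have hS1 : Nic T1 (V ∪ S') := by
    obtain ⟨S0, hO, hG, hle⟩ := hS'.ex
    exact ⟨hS'.prime, hS'.two, S0, hO, hG, hle.trans Finset.subset_union_right⟩
  let _ : Fintype (GS (V ∪ S')) := Fintype.ofFinite _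
  have hch : ∀ p : (Io (V ∪ S') →₀ ℕ) × GS (V ∪ S'), ∃ W : Finset (HeightOneSpectrum (𝓞 K)),
      (∀ u ∈ W, u ∉ V ∪ S') ∧ (Rel (V ∪ S') p.1 p.2 → ∃ z : Kˣ,
        (∀ v : Io (V ∪ S'), ordK v.1 z = (p.1 v : ℤ)) ∧
        (QuotientGroup.mk z : GS (V ∪ S')) = p.2 ∧ (IsSquare z ∨ ∃ u ∈ W, uK u z = -1)) := by
    intro p
    by_cases hR : Rel (V ∪ S') p.1 p.2
    · obtain ⟨z, hz1, hz2⟩ := hR
      by_cases hsq : IsSquare z
      · exact ⟨∅, fun u hu => absurd hu (Finset.notMem_empty _),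
          fun _ => ⟨z, hz1, hz2, Or.inl hsq⟩⟩
      · obtain ⟨u, hu1, hu2⟩ := exists_inert (V ∪ S') z hsq
        refine ⟨{u}, fun w hw => ?_, fun _ => ⟨z, hz1, hz2,
          Or.inr ⟨u, Finset.mem_singleton_self _, hu2⟩⟩⟩
        rw [Finset.mem_singleton.1 hw]
        exact hu1
    · exact ⟨∅, fun u hu => absurd hu (Finset.notMem_empty _), fun h => absurd h hR⟩
  choose W hW1 hW2 using hch
  have hfin := sep_finb (V ∪ S') Q
  refine ⟨(hfin.toFinset ×ˢ Finset.univ).biUnion W, ?_, ?_⟩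
  · intro v hv hvU
    rw [Finset.mem_biUnion] at hvU
    obtain ⟨p, _, hp⟩ := hvU
    exact hW1 p v hp (Finset.mem_union_left _ hv)
  · obtain ⟨U, hU⟩ : ∃ U, (hfin.toFinset ×ˢ Finset.univ).biUnion W = U := ⟨_, rfl⟩
    rw [hU]
    intro x b hx hxb hb
    have hUS : ∀ u ∈ U, u ∉ V ∪ S' := by
      intro u hu
      rw [← hU, Finset.mem_biUnion] at hu
      obtain ⟨p, _, hp⟩ := hu
      exact hW1 p u hp
    obtain ⟨y, hy⟩ := sep_y hS1 (fun v => -(ordK v x / 2)) U hUS
    have hev : ∀ u ∈ U, Even (ordK u x) := fun u hu =>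
      even_of_LSq (hx.1 u (Finset.mem_union_left _ hu))
    let e : Io (V ∪ (U ∪ S')) ↪ Io (V ∪ S') := ⟨fun v => ⟨v.1, fun h => v.2 (by
      rcases Finset.mem_union.1 h with h | h
      · exact Finset.mem_union_left _ h
      · exact Finset.mem_union_right _ (Finset.mem_union_right _ h))⟩, fun v w h =>
      Subtype.ext (congrArg (fun z : Io (V ∪ S') => z.1) h)⟩
    have hb1 : ((b.embDomain e).prod fun v k => nrm v.1 ^ k) < Q := by
      rw [Finsupp.prod_embDomain]
      exact hb
    have hord : ∀ v : Io (V ∪ S'), ordK v.1 (x * y ^ 2) = ((b.embDomain e) v : ℤ) := by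
      intro v
      rw [Pool.Agent.QD.ordK_mul, Pool.Agent.QD.ordK_pow, hy v.1 v.2]
      by_cases hvU : v.1 ∈ U
      · rw [if_pos hvU, Finsupp.embDomain_of_notMem_range]
        · obtain ⟨m, hm⟩ := hev v.1 hvU
          rw [hm]
          push_cast
          omega
        · rintro ⟨w, hw⟩
          apply w.2
          have h1 : w.1 = v.1 := congrArg (fun z : Io (V ∪ S') => z.1) hw
          rw [h1]
          exact Finset.mem_union_right _ (Finset.mem_union_left _ hvU)
      · rw [if_neg hvU, mul_zero, add_zero]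
        have hv2 : v.1 ∉ V ∪ (U ∪ S') := by
          intro h
          rcases Finset.mem_union.1 h with h | h
          · exact v.2 (Finset.mem_union_left _ h)
          · rcases Finset.mem_union.1 h with h | h
            · exact hvU h
            · exact v.2 (Finset.mem_union_right _ h)
        have h1 : v = e ⟨v.1, hv2⟩ := rfl
        rw [h1, Finsupp.embDomain_apply_self]
        exact hxb ⟨v.1, hv2⟩
    have hR : Rel (V ∪ S') (b.embDomain e) (QuotientGroup.mk (x * y ^ 2) : GS (V ∪ S')) :=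
      ⟨_, hord, rfl⟩
    obtain ⟨z, hz1, hz2, hz3⟩ := hW2 (b.embDomain e, QuotientGroup.mk (x * y ^ 2)) hR
    have hsub : ∀ u ∈ W (b.embDomain e, QuotientGroup.mk (x * y ^ 2)), u ∈ U := by
      intro u hu
      rw [← hU, Finset.mem_biUnion]
      refine ⟨_, ?_, hu⟩
      rw [Finset.mem_product]
      exact ⟨(Set.Finite.mem_toFinset hfin).2 hb1, Finset.mem_univ _⟩
    have hoz : ∀ v : Io (V ∪ S'), ordK v.1 (x * y ^ 2) = ordK v.1 z := fun v => by
      rw [hord v, hz1 v]
    rcases hz3 with hz3 | ⟨u, hu, huz⟩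
    · obtain ⟨r, hr⟩ := sq_of_rel hS1 hoz hz2.symm
      obtain ⟨t, ht⟩ := hz3
      refine ⟨r * t * y⁻¹, ?_⟩
      rw [div_eq_iff_eq_mul, ht] at hr
      have h1 : x = x * y ^ 2 * (y⁻¹ * y⁻¹) := by
        rw [pow_two]
        group
      rw [h1, hr]
      rw [mul_mul_mul_comm (r * t), mul_mul_mul_comm r t r t]
    · have hLS : LSq u (x * y ^ 2) :=
        LSq_mul (hx.1 u (Finset.mem_union_left _ (hsub u hu))) (LSq_sq u y)
      have h1 := uK_of_LSq hLS
      have h2 := uK_of_rel hS1 hoz hz2.symm u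
      rw [h1, huz] at h2
      norm_num at h2

end Pool.Agent.MD
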