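import Pool.Agent.MD.I.Defs
import Pool.Agent.LD.I.Inst

/-!
# MD/I-Apx: weak approximation at several places, the elements `E v`, `P v`

PLAN.  `approx_many`: induction on `V` (`Finset.induction_on`, generalizing nothing but using the disjointness for subsets): for `insert v V'`: take `z'` for
`V'`, then `weak_approx (V' ∪ S) v _ z' (y v)` (QD/N3/Weak) gives `z` with `z / z' ∈ HSub (V' ∪ S)` and `LSq v (z / y v)`; so `z / x ∈ HSub S`
(`HSub_mono`, `Subgroup.mul_mem`, `div_mul_div_cancel`), and `LSq w (z / y w)` for `w ∈ V'` (`LSq_mul`).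
`exists_EP`: for `i : {v // v ∈ V}` let `ev` with `uK i.1 ev = -1` (`exists_nonres`, LD/I/Inst, `2 ∉ i.1` by `nic_two`), `pv` with `ordK i.1 pv = 1` (`nic_pi`: `i.1 ∉ S'`).
`E i` from `approx_many S' V hd 1 (fun v => if v = i.1 then ev else 1)`; `uK_congr'` (QD/In/V0a) gives `uK i.1 (E i) = -1`; the same for `P i`.
`cl_mk`: `QuotientGroup.mk' (HSub S)` is a homomorphism (`map_prod`, `map_mul`), `rp e p j = (if j.1 then e else 1) * (if j.2 then p else 1)` (QD/In/V0a).
`loc_cl`: in `y * ∏ j, rp (E j) (P j) (k j)` all factors except the one of `i` are local squares at `i.1` (`E_V`, `P_V`; `Finset.mul_prod_erase`, a product of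
elements of the subgroup `LSub`), so the quotient by `rp (E i) (P i) (k i)` is a local square.  The three consequences: `uK_congr'`; for
`k i = (false, false)`: `rp = 1`; for `(true, false)`: `rp = E i`; for `(_, true)`: `rp` has odd order (`ordK_mul`, `uK_cases`-like: `E i` has even order as
`uK i.1 (E i) = -1 ≠ 0`, `uK_eq_zero_iff`).
-/

namespace Pool.Agent.MD

open NumberField IsDedekindDomain Pool.Agent.HWR Pool.Agent.QD Pool.Agent.QD.In Pool.Agent.LD

variable {K : Type} [Field K] [NumberField K]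

theorem approx_many (S V : Finset (HeightOneSpectrum (𝓞 K))) (hd : ∀ v ∈ V, v ∉ S) (x : Kˣ)
    (y : HeightOneSpectrum (𝓞 K) → Kˣ) :
    ∃ z : Kˣ, z / x ∈ Pool.Agent.QD.HSub S ∧ ∀ v ∈ V, LSq v (z / y v) := by
  classical
  induction V using Finset.induction_on with
  | empty =>
    refine ⟨x, ?_, ?_⟩
    · rw [div_self']
      exact (Pool.Agent.QD.HSub S).one_mem
    · intro v hv
      exact absurd hv (Finset.notMem_empty v)
  | insert v V' hv ih =>
    obtain ⟨z', hz1, hz2⟩ := ih fun w hw => hd w (Finset.mem_insert_of_mem hw)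
    have hvn : v ∉ V' ∪ S := by
      rw [Finset.mem_union]
      rintro (h | h)
      · exact hv h
      · exact hd v (Finset.mem_insert_self v V') h
    obtain ⟨z, h1, h2⟩ := weak_approx (V' ∪ S) v hvn z' (y v)
    refine ⟨z, ?_, ?_⟩
    · have h3 : z / x = z / z' * (z' / x) := by rw [div_mul_div_cancel]
      rw [h3]
      exact (Pool.Agent.QD.HSub S).mul_mem (HSub_mono Finset.subset_union_right h1) hz1
    · intro w hw
      rw [Finset.mem_insert] at hw
      rcases hw with rfl | hw
      · exact h2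
      · have h3 : z / y w = z / z' * (z' / y w) := by rw [div_mul_div_cancel]
        rw [h3]
        exact LSq_mul (h1.1 w (Finset.mem_union_left _ hw)) (hz2 w hw)

theorem exists_EP {T1 : Finset ℕ} {S' V : Finset (HeightOneSpectrum (𝓞 K))} (hS' : Nic T1 S')
    (hd : ∀ v ∈ V, v ∉ S') : ∃ E P : {v // v ∈ V} → Kˣ, IsEP S' V E P := by
  classical
  have hE : ∀ i : {v // v ∈ V}, ∃ z : Kˣ, uK i.1 z = -1 ∧ z ∈ Pool.Agent.QD.HSub S' ∧
      ∀ j : {v // v ∈ V}, i ≠ j → LSq j.1 z := by
    intro i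
    obtain ⟨ev, hev⟩ := Pool.Agent.LD.exists_nonres i.1 (nic_two hS' i.1 (hd i.1 i.2))
    obtain ⟨z, h1, h2⟩ := approx_many S' V hd 1 (fun v => if v = i.1 then ev else 1)
    refine ⟨z, ?_, ?_, ?_⟩
    · have h3 := h2 i.1 i.2
      rw [if_pos rfl] at h3
      rw [(uK_congr' i.1 h3).1, hev]
    · rwa [div_one] at h1
    · intro j hij
      have h3 := h2 j.1 j.2
      rw [if_neg (fun h => hij (Subtype.ext h.symm)), div_one] at h3
      exact h3
  have hP : ∀ i : {v // v ∈ V}, ∃ z : Kˣ, Odd (ordK i.1 z) ∧ z ∈ Pool.Agent.QD.HSub S' ∧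
      ∀ j : {v // v ∈ V}, i ≠ j → LSq j.1 z := by
    intro i
    obtain ⟨pv, hpv, _⟩ := nic_pi hS' i.1 (hd i.1 i.2)
    obtain ⟨z, h1, h2⟩ := approx_many S' V hd 1 (fun v => if v = i.1 then pv else 1)
    refine ⟨z, ?_, ?_, ?_⟩
    · have h3 := h2 i.1 i.2
      rw [if_pos rfl] at h3
      rw [(uK_congr' i.1 h3).2, hpv]
      exact odd_one
    · rwa [div_one] at h1
    · intro j hij
      have h3 := h2 j.1 j.2
      rw [if_neg (fun h => hij (Subtype.ext h.symm)), div_one] at h3
      exact h3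
  choose E hE1 hE2 hE3 using hE
  choose P hP1 hP2 hP3 using hP
  exact ⟨E, P, ⟨hE1, hP1, hE2, hP2, hE3, hP3⟩⟩

theorem cl_mk (S : Finset (HeightOneSpectrum (𝓞 K))) {κ : Type} [Fintype κ] (E P : κ → Kˣ)
    (k : κ → LC) : cl (fun i => (QuotientGroup.mk (E i) : GS S))
      (fun i => (QuotientGroup.mk (P i) : GS S)) k =
      QuotientGroup.mk (∏ i, rp (E i) (P i) (k i)) := by
  unfold cl
  have h1 : (QuotientGroup.mk (∏ i, rp (E i) (P i) (k i)) : GS S) =
      ∏ i, (QuotientGroup.mk (rp (E i) (P i) (k i)) : GS S) :=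
    map_prod (QuotientGroup.mk' (HSub S)) _ _
  rw [h1]
  apply Finset.prod_congr rfl
  intro i _
  have h2 : ∀ a b : Bool, ((if a = true then (QuotientGroup.mk (E i) : GS S) else 1) *
      (if b = true then (QuotientGroup.mk (P i) : GS S) else 1)) =
      QuotientGroup.mk ((if a = true then E i else 1) * (if b = true then P i else 1)) := by
    intro a b
    rw [QuotientGroup.mk_mul]
    congr 1
    · cases a <;> rfl
    · cases b <;> rfl
  exact h2 (k i).1 (k i).2

private theorem rp_mem {H : Subgroup Kˣ} {e p : Kˣ} (he : e ∈ H) (hp : p ∈ H) (k : LC) :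
    rp e p k ∈ H := by
  unfold rp
  apply H.mul_mem
  · split_ifs
    · exact he
    · exact H.one_mem
  · split_ifs
    · exact hp
    · exact H.one_mem

/-- the local class at `i` of an element -/
theorem loc_cl {S' V : Finset (HeightOneSpectrum (𝓞 K))} {E P : {v // v ∈ V} → Kˣ}
    (h : IsEP S' V E P) {y : Kˣ} (hy : ∀ v ∈ V, LSq v y) (k : {v // v ∈ V} → LC)
    (i : {v // v ∈ V}) :
    (k i = (false, false) → LSq i.1 (y * ∏ j, rp (E j) (P j) (k j))) ∧
    (k i = (true, false) → uK i.1 (y * ∏ j, rp (E j) (P j) (k j)) = -1) ∧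
    ((k i).2 = true → Odd (ordK i.1 (y * ∏ j, rp (E j) (P j) (k j)))) := by
  classical
  have key : LSq i.1 ((y * ∏ j, rp (E j) (P j) (k j)) / rp (E i) (P i) (k i)) := by
    have h1 : (y * ∏ j, rp (E j) (P j) (k j)) / rp (E i) (P i) (k i) =
        y * ∏ j ∈ Finset.univ.erase i, rp (E j) (P j) (k j) := by
      rw [← Finset.mul_prod_erase Finset.univ (fun j => rp (E j) (P j) (k j)) (Finset.mem_univ i)]
      rw [div_eq_iff_eq_mul]
      rw [mul_comm (rp (E i) (P i) (k i)), mul_assoc]
    rw [h1, ← mem_LSub]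
    apply (LSub i.1).mul_mem (hy i.1 i.2)
    apply Subgroup.prod_mem
    intro j hj
    have hji : j ≠ i := (Finset.mem_erase.1 hj).1
    exact rp_mem (h.E_V j i hji) (h.P_V j i hji) (k j)
  refine ⟨?_, ?_, ?_⟩
  · intro hk
    rw [hk] at key
    have h1 : rp (E i) (P i) (false, false) = 1 := by simp [rp]
    rw [h1, div_one] at key
    exact key
  · intro hk
    have h1 := (uK_congr' i.1 key).1
    rw [h1, hk]
    have h2 : rp (E i) (P i) (true, false) = E i := by simp [rp]
    rw [h2]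
    exact h.E_loc i
  · intro hk
    rw [(uK_congr' i.1 key).2]
    unfold rp
    rw [if_pos hk, Pool.Agent.QD.ordK_mul]
    have h1 : Even (ordK i.1 (if (k i).1 = true then E i else 1)) := by
      split_ifs
      · exact (uK_eq_neg_one_iff.1 (h.E_loc i)).1
      · rw [Pool.Agent.QD.ordK_one]
        exact Even.zero
    exact h1.add_odd (h.P_loc i)

/-- the products are trivial at `S'` -/
theorem prod_S {S' V : Finset (HeightOneSpectrum (𝓞 K))} {E P : {v // v ∈ V} → Kˣ}
    (h : IsEP S' V E P) (k : {v // v ∈ V} → LC) :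
    (∏ j, rp (E j) (P j) (k j)) ∈ Pool.Agent.QD.HSub S' := by
  apply Subgroup.prod_mem
  intro j _
  exact rp_mem (h.E_S j) (h.P_S j) (k j)

end Pool.Agent.MD
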