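import Pool.Agent.MD.A.Defs
import Pool.Agent.LD.I.Defs

/-!
# MD/I, instantiation: definitions

`V` is a finite set of places of the number field `K`, `S' ` a good set of places disjoint from `V`,
`S = V ∪ S'`.
-/

namespace Pool.Agent.MD

open NumberField IsDedekindDomain Pool.Agent.HWR Pool.Agent.QD Pool.Agent.QD.In Pool.Agent.LD

variable {K : Type} [Field K] [NumberField K]

/-- the elements which are local squares at all places of `V` -/
noncomputable def LV (V : Finset (HeightOneSpectrum (𝓞 K))) : Subgroup Kˣ where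
  carrier := {x | ∀ v ∈ V, LSq v x}
  mul_mem' := fun hx hy v hv => LSq_mul (hx v hv) (hy v hv)
  one_mem' := fun v _ => LSq_one v
  inv_mem' := fun hx v hv => LSq_inv (hx v hv)

/-- the classes of `G_S` which are local squares at all places of `V` -/
noncomputable def HV (S V : Finset (HeightOneSpectrum (𝓞 K))) : Subgroup (GS S) :=
  (LV V).map (QuotientGroup.mk' (HSub S))

/-- the classes of `G_S` which are local squares at no place of `V` -/
def KV (S V : Finset (HeightOneSpectrum (𝓞 K))) : Set (GS S) :=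
  {c | ∀ v ∈ V, ¬ LSq v (Quotient.out c)}

theorem mem_HV {S V : Finset (HeightOneSpectrum (𝓞 K))} (hV : V ⊆ S) (x : Kˣ) :
    (QuotientGroup.mk x : GS S) ∈ HV S V ↔ ∀ v ∈ V, LSq v x := by
  constructor
  · rintro ⟨y, hy, hxy⟩ v hv
    have h1 : (QuotientGroup.mk y : GS S) = QuotientGroup.mk x := hxy
    have h2 := (mk_eq_iff S y x).1 h1
    have h3 : LSq v (y / x) := h2.1 v (hV hv)
    have h4 : LSq v (y / (y / x)) := LSq_div (hy v hv) h3
    rwa [div_div_cancel] at h4
  · intro h
    exact ⟨x, h, rfl⟩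

theorem mem_KV {S V : Finset (HeightOneSpectrum (𝓞 K))} (hV : V ⊆ S) (x : Kˣ) :
    (QuotientGroup.mk x : GS S) ∈ KV S V ↔ ∀ v ∈ V, ¬ LSq v x := by
  have h1 := out_div S x
  constructor
  · intro h v hv hx
    refine h v hv ?_
    have h2 := LSq_mul (h1.1 v (hV hv)) hx
    rwa [div_mul_cancel] at h2
  · intro h v hv hx
    refine h v hv ?_
    have h2 := LSq_div hx (h1.1 v (hV hv))
    rwa [div_div_cancel] at h2

open Classical in
/-- the common factor of the scattering coefficients -/
noncomputable def M0V (S' V : Finset (HeightOneSpectrum (𝓞 K))) (c : GS (V ∪ S')) (w : ℂ) : ℂ :=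
  Mx S' (Quotient.out c) w * ∏ v ∈ V, ph (nrm v) w

/-- Hasse-Weil for all quadratic extensions `K(√x)` in which no place of `V` splits -/
def HWV {T : Finset ℕ} (D : LocData T) (a : ℕ → ℝ) (V : Finset (HeightOneSpectrum (𝓞 K))) :
    Prop :=
  ∀ x : Kˣ, (∀ v ∈ V, ¬ LSq v x) → ∀ (L : Type) [Field L] [NumberField L] [Algebra K L] (θ : L),
    Module.finrank K L = 2 → θ ^ 2 = algebraMap K L (x : K) → D.HW a L

/-- elements `E v`, `P v` (`v ∈ V`) of `K^*`: a nonsquare unit resp. an element of odd order at `v`, trivial at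
the other places of `V` and at `S'` -/
structure IsEP (S' V : Finset (HeightOneSpectrum (𝓞 K))) (E P : {v // v ∈ V} → Kˣ) : Prop where
  E_loc : ∀ i, uK i.1 (E i) = -1
  P_loc : ∀ i, Odd (ordK i.1 (P i))
  E_S : ∀ i, E i ∈ Pool.Agent.QD.HSub S'
  P_S : ∀ i, P i ∈ Pool.Agent.QD.HSub S'
  E_V : ∀ i j, i ≠ j → LSq j.1 (E i)
  P_V : ∀ i j, i ≠ j → LSq j.1 (P i)

end Pool.Agent.MD
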