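import Pool.Agent.MD.I.Apx
import Pool.Agent.MD.I.M0c

/-!
# MD/I-Mfac: the axiom `M_fac`

`h * cl = mk z` with `z = y * ∏ j, rp (E j) (P j) (k j)`; the sum `Mx (V ∪ S') z w` splits over the places of `V`
(`Mx_split`), the local factors are `mloc * ph` (`m0_cl`, `loc_cl`), and `Mx S' z w` depends only on the class of `y`.
-/

namespace Pool.Agent.MD

open NumberField IsDedekindDomain Pool.Agent.HWR Pool.Agent.QD Pool.Agent.QD.In Pool.Agent.LD

variable {K : Type} [Field K] [NumberField K]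

open Classical in
theorem M_facV {T1 : Finset ℕ} {S' V : Finset (HeightOneSpectrum (𝓞 K))} (hS' : Nic T1 S')
    (hd : ∀ v ∈ V, v ∉ S') {E P : {v // v ∈ V} → Kˣ} (hE : IsEP S' V E P)
    {h : GS (V ∪ S')} (hh : h ∈ HV (V ∪ S') V) (k : {v // v ∈ V} → LC) {w : ℂ} (hw : w.re < 0) :
    Mc (V ∪ S') (h * cl (fun i => (QuotientGroup.mk (E i) : GS (V ∪ S')))
      (fun i => (QuotientGroup.mk (P i) : GS (V ∪ S'))) k) w =
      M0V S' V h w * ∏ i : {v // v ∈ V}, mloc (nrm i.1) (k i) w := by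
  classical
  obtain ⟨y, rfl⟩ := QuotientGroup.mk_surjective h
  have hVS : V ⊆ V ∪ S' := Finset.subset_union_left
  have hy : ∀ v ∈ V, LSq v y := (mem_HV hVS y).1 hh
  obtain ⟨z, hz⟩ : ∃ z : Kˣ, z = y * ∏ j, rp (E j) (P j) (k j) := ⟨_, rfl⟩
  have h1 : (QuotientGroup.mk y : GS (V ∪ S')) *
      cl (fun i => (QuotientGroup.mk (E i) : GS (V ∪ S')))
        (fun i => (QuotientGroup.mk (P i) : GS (V ∪ S'))) k = QuotientGroup.mk z := by
    rw [cl_mk, hz]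
    rfl
  rw [h1, Mc_mk]
  obtain ⟨e, he0⟩ : ∃ e : HeightOneSpectrum (𝓞 K) → Kˣ, ∀ i : {v // v ∈ V}, e i.1 = E i :=
    ⟨fun v => if h : v ∈ V then E ⟨v, h⟩ else 1, fun i => dif_pos i.2⟩
  obtain ⟨p, hp0⟩ : ∃ p : HeightOneSpectrum (𝓞 K) → Kˣ, ∀ i : {v // v ∈ V}, p i.1 = P i :=
    ⟨fun v => if h : v ∈ V then P ⟨v, h⟩ else 1, fun i => dif_pos i.2⟩
  have he : ∀ v ∈ V, uK v (e v) = -1 := fun v hv => by
    rw [he0 ⟨v, hv⟩]
    exact hE.E_loc ⟨v, hv⟩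
  have hp : ∀ v ∈ V, Odd (ordK v (p v)) := fun v hv => by
    rw [hp0 ⟨v, hv⟩]
    exact hE.P_loc ⟨v, hv⟩
  rw [Mx_split hS' hd e p he hp z w]
  unfold M0V
  have h2 : Mx S' z w = Mx S' (Quotient.out (QuotientGroup.mk y : GS (V ∪ S'))) w := by
    apply Mx_congr hS'
    have h3 : z / Quotient.out (QuotientGroup.mk y : GS (V ∪ S')) =
        (∏ j, rp (E j) (P j) (k j)) * (y / Quotient.out (QuotientGroup.mk y : GS (V ∪ S'))) := by
      rw [hz, mul_comm y, mul_div_assoc]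
    rw [h3]
    exact (Pool.Agent.QD.HSub S').mul_mem (prod_S hE k)
      (HSub_mono Finset.subset_union_right (div_out (V ∪ S') y))
  rw [h2, mul_assoc]
  congr 1
  rw [← Finset.prod_coe_sort V (fun v => ph (nrm v) w),
    ← Finset.prod_coe_sort V (fun v => m0 v (e v) (p v) z w), ← Finset.prod_mul_distrib]
  apply Finset.prod_congr rfl
  intro i _
  obtain ⟨l1, l2, l3⟩ := loc_cl hE hy k i
  rw [← hz] at l1 l2 l3
  have h4 := m0_cl i.1 (nic_two hS' i.1 (hd i.1 i.2)) (hE.E_loc i) (hE.P_loc i) (k i) l1 l2 l3 hw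
  rw [he0 i, hp0 i, h4, mul_comm]


end Pool.Agent.MD
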